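import Pool.Agent.V11244.Zf.Brg
import Pool.Agent.V11244.Zf.AEb

/-!
# No finite-to-one function from the finitary partitions of an infinite set to the set

In every model of Zermelo set theory (so in every model of ZF): if `a` is infinite, then no
function from the set of all finitary partitions of `a` to `a` is finite-to-one.

`IsFinPart`, `IsPartSet` are from `Pool.Agent.V11244.Zf.Brg`; `IsFinite`, `IsFinToOne` are from
`Pool.Agent.H310R3.Cards`.
-/

namespace Pool.Agent.Results.MP_ae0fd6_lc.NoFiniteToOne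

open FirstOrder FirstOrder.Language
open Pool.Agent.Helper672.Plain (LSet Zermelo)
open Pool.Agent.H310Cards
open Pool.Agent.V11244Parts

universe u

open Pool.Agent.Helper672.ZFA Pool.Agent.H310 Pool.Agent.Helper672.ZFA.V244 in
theorem result (M : Type u) [LSet.Structure M] [Zermelo M] (a p f : M)
    (hp : IsPartSet p a) (ha : ¬ IsFinite a) : ¬ IsFinToOne f p a := by
  let := Pool.Agent.Helper672.Plain.toL (M := M)
  let : Pool.Agent.Helper672.ZFA.IsModel M := Pool.Agent.Helper672.Plain.isModel_toL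
  intro hf
  obtain ⟨F, hF, hF'⟩ := exists_fun (α := FPt M (El a)) (β := El a) hf.1
    (fun P => (hp _).2 (code_fpt P)) fun z hz => mem_El.1 hz
  refine no_fto_F (not_finP (fun z => mem_El) ha) hF fun y => ?_
  have hI : Int M (fun P => F P = y) := Int.eq hF (IntF.const y)
  refine finP_of_finite (t := hI.small.elt) hI (fun z => hI.small.mem) ?_
  refine hf.2 y.1 y.2 _ fun x => ?_
  refine (hI.small.mem (z := x)).trans ⟨?_, fun hx => ?_⟩
  · rintro ⟨P, hP, rfl⟩
    exact (hF' P y).1 hP
  · obtain ⟨q, h1, h2⟩ := hx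
    obtain ⟨x', y', h3, h4, h5⟩ := hf.1.1 q h2
    obtain ⟨rfl, -⟩ := op_inj ((ordPair_iff.1 h1).symm.trans (ordPair_iff.1 h5))
    obtain ⟨P, rfl⟩ := exists_fpt ((hp x).1 h3)
    exact ⟨P, (hF' P y).2 ⟨q, h1, h2⟩, rfl⟩

end Pool.Agent.Results.MP_ae0fd6_lc.NoFiniteToOne
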